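import Pool.Agent.MP_5f72fe_nt.H3.SpecC

/-! The local density modulo six, and squarefree numbers that are `7` modulo `12`. -/

namespace Pool.Agent.MP_5f72fe_nt.H22

open Pool.Agent.MP_5f72fe_nt.H3 Pool.Agent.MP_1246c0_nt.H55 Filter Finset

/-- the residues modulo six with discriminant `5` -/
def S6 : Finset (ZMod 6 × ZMod 6 × ZMod 6 × ZMod 6) :=
  univ.filter fun x => (x.1 * x.2.2.2 - x.2.1 * x.2.2.1) ^ 2 -
    4 * (x.1 * x.2.2.1 - x.2.1 ^ 2) * (x.2.1 * x.2.2.2 - x.2.2.1 ^ 2) = 5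

theorem card_S6 : S6.card = 144 := by decide +kernel

theorem rowLOC6 : RowLOC6 := by
  refine ⟨S6.image fun x => (![x.1, x.2.1, x.2.2.1, x.2.2.2] : Fm (ZMod 6)), fun f hf => ?_,
    le_trans (b := (S6.card : ℝ)) (by exact_mod_cast card_image_le) (by rw [card_S6]; norm_num)⟩
  refine mem_image.2 ⟨(f 0, f 1, f 2, f 3), mem_filter.2 ⟨mem_univ _, ?_⟩, ?_⟩
  · have h : ((dsc f : ℤ) : ZMod 6) = ((5 : ℤ) : ZMod 6) :=
      (ZMod.intCast_eq_intCast_iff' _ _ 6).2 (by simp only at hf; omega)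
    rw [← dsc_cst] at h
    exact h
  · funext i
    fin_cases i <;> rfl

theorem cnt7 (X : ℕ) : (X + 5) / 12 ≤ ((range (X + 1)).filter fun n => n % 12 = 7).card := by
  rw [← card_range ((X + 5) / 12)]
  refine card_le_card_of_injOn (fun j => 12 * j + 7) (fun j hj => ?_) fun i _ j _ h => ?_
  · simp only [coe_range, Set.mem_Iio, coe_filter, mem_range, Set.mem_ofPred_eq] at hj ⊢
    omega
  · simp only at h; omega

theorem cntm (X m : ℕ) (hm : Nat.Coprime 12 m) :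
    ((range (X + 1)).filter fun n => n % 12 = 7 ∧ m ^ 2 ∣ n).card ≤ X / (12 * m ^ 2) + 1 := by
  rw [← card_range (X / (12 * m ^ 2) + 1)]
  refine card_le_card_of_injOn (fun n => n / (12 * m ^ 2)) (fun n hn => ?_) fun i hi j hj h => ?_
  · simp only [coe_range, Set.mem_Iio, coe_filter, mem_range, Set.mem_ofPred_eq] at hn ⊢
    exact Nat.lt_succ_of_le (Nat.div_le_div_right (by omega))
  · simp only [coe_filter, mem_range, Set.mem_ofPred_eq] at hi hj h
    have h1 : i ≡ j [MOD 12] := by rw [Nat.ModEq]; omega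
    have h2 : i ≡ j [MOD m ^ 2] :=
      (Nat.modEq_zero_iff_dvd.2 hi.2.2).trans (Nat.modEq_zero_iff_dvd.2 hj.2.2).symm
    have h3 : i % (12 * m ^ 2) = j % (12 * m ^ 2) :=
      (Nat.modEq_and_modEq_iff_modEq_mul (hm.pow_right 2)).1 ⟨h1, h2⟩
    rw [← Nat.div_add_mod i (12 * m ^ 2), ← Nat.div_add_mod j (12 * m ^ 2), h, h3]

theorem rowFDN : RowFDN := by
  classical
  filter_upwards [eventually_ge_atTop 1000000] with X hX
  set s := Nat.sqrt X with hs
  have hs4 : 4 ≤ s := Nat.le_sqrt'.2 (by omega)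
  set T := (Ioc 4 s).filter fun m => Nat.Coprime 12 m with hT
  have h5 : ((range (X + 1)).filter fun n => n % 12 = 7) ⊆
      ((range (X + 1)).filter fun n => n % 12 = 7 ∧ Squarefree n) ∪
        T.biUnion fun m => (range (X + 1)).filter fun n => n % 12 = 7 ∧ m ^ 2 ∣ n := by
    intro n hn
    obtain ⟨h1, h2⟩ := mem_filter.1 hn
    by_cases hq : Squarefree n
    · exact mem_union_left _ (mem_filter.2 ⟨h1, h2, hq⟩)
    · rw [Nat.squarefree_iff_prime_squarefree] at hq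
      push Not at hq
      obtain ⟨p, hp, hd⟩ := hq
      have p2 : p ≠ 2 := by rintro rfl; omega
      have p3 : p ≠ 3 := by rintro rfl; omega
      have p4 : p ≠ 4 := by rintro rfl; exact absurd hp (by decide)
      have := hp.two_le
      have hle := Nat.le_of_dvd (by omega) hd
      have hX1 := mem_range.1 h1
      refine mem_union_right _ (mem_biUnion.2 ⟨p, mem_filter.2 ⟨mem_Ioc.2
        ⟨by omega, Nat.le_sqrt.2 (by omega)⟩, ?_⟩, mem_filter.2 ⟨h1, h2, by rwa [sq]⟩⟩)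
      exact Nat.Coprime.mul_left (m := 2 ^ 2) (n := 3)
        (((Nat.coprime_primes Nat.prime_two hp).2 p2.symm).pow_left 2)
        ((Nat.coprime_primes Nat.prime_three hp).2 p3.symm)
  have h6 := (cnt7 X).trans ((card_le_card h5).trans ((card_union_le _ _).trans
    (Nat.add_le_add_left card_biUnion_le _)))
  have h7 := (Nat.cast_le (α := ℝ)).2 h6
  rw [Nat.cast_add, Nat.cast_sum] at h7
  have h8 : ∑ m ∈ T, (((range (X + 1)).filter fun n => n % 12 = 7 ∧ m ^ 2 ∣ n).card : ℝ) ≤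
      ∑ m ∈ Ioc 4 s, ((X : ℝ) / 12 * ((m : ℝ) ^ 2)⁻¹ + 1) := by
    refine le_trans (sum_le_sum fun m hm => ?_) (sum_le_sum_of_subset_of_nonneg (filter_subset _ _)
      fun m _ _ => by positivity)
    refine ((Nat.cast_le (α := ℝ)).2 (cntm X m (mem_filter.1 hm).2)).trans ?_
    rw [Nat.cast_add, Nat.cast_one]
    refine add_le_add_left (Nat.cast_div_le.trans (le_of_eq ?_)) 1
    push_cast
    rw [← div_eq_mul_inv, div_div]
  have h9 : ∑ m ∈ Ioc 4 s, ((m : ℝ) ^ 2)⁻¹ ≤ 1 / 4 :=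
    (sum_Ioc_inv_sq_le_sub (by norm_num) hs4).trans (by
      have : (0 : ℝ) ≤ (s : ℝ)⁻¹ := by positivity
      push_cast
      linarith)
  rw [sum_add_distrib, ← mul_sum, sum_const, Nat.card_Ioc, nsmul_eq_mul, mul_one,
    Nat.cast_sub hs4] at h8
  have h10 : (X : ℝ) / 12 * ∑ m ∈ Ioc 4 s, ((m : ℝ) ^ 2)⁻¹ ≤ X / 12 * (1 / 4) :=
    mul_le_mul_of_nonneg_left h9 (by positivity)
  have h11 : (X : ℝ) ≤ 12 * (((X + 5) / 12 : ℕ) : ℝ) + 6 := by
    exact_mod_cast (by omega : X ≤ 12 * ((X + 5) / 12) + 6)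
  have h12 : (s : ℝ) ^ 2 ≤ X := by exact_mod_cast Nat.sqrt_le' X
  have h13 : (1000000 : ℝ) ≤ X := by exact_mod_cast hX
  push_cast at h8
  nlinarith [sq_nonneg ((s : ℝ) - 800)]

end Pool.Agent.MP_5f72fe_nt.H22
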