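import Pool.Agent.MP_5f72fe_nt.H3.SpecC

/-! The rows of the kernel are cusp forms of the plus space. -/

namespace Pool.Agent.MP_5f72fe_nt.H22

open Pool.Agent.MP_5f72fe_nt.H3 Complex
open scoped Real NumberTheorySymbols

noncomputable section

theorem adm_odd {N k : ℕ} (h : Adm N k) : Odd N := by
  have := h.2.2
  rw [Nat.odd_iff]; omega

theorem Ot_neg (hF : RowFAM) {N k : ℕ} (h : Adm N k) (m μ : ℕ) (hμ : μ < 2) {τ : ℂ}
    (hτ : 0 < τ.im) (a δ : ℤ) : Ot N k m μ (-a, -δ) τ = Ot N k m μ (a, δ) τ := by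
  by_cases hv : (a, δ) = 0
  · obtain ⟨h1, h2⟩ := Prod.mk_eq_zero.1 hv
    simp [h1, h2]
  · have hv' : (-a, -δ) ≠ 0 := by simpa using hv
    rw [Ot, Ot, if_neg hv, if_neg hv']
    simp only
    rw [hF.neg N a δ m μ τ (adm_odd h) h.2.1 hv hμ hτ]
    have e : (((-a : ℤ) : ℂ) * τ + ((-δ : ℤ) : ℂ)) = (-1) * (a * τ + δ) := by push_cast; ring
    have s : (if N % 4 = 1 then (1 : ℂ) else -1) = (-1) ^ k := by
      have := h.2.2
      rcases Nat.even_or_odd k with hk | hk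
      · rw [hk.neg_one_pow, if_pos]; have := Nat.even_iff.1 hk; omega
      · rw [hk.neg_one_pow, if_neg]; have := Nat.odd_iff.1 hk; omega
    rw [e, s, mul_pow, mul_div_mul_left _ _ (pow_ne_zero k (by norm_num))]

theorem Ot_zero_supp {N k m μ : ℕ} (hm : 1 ≤ m) (τ : ℂ) (δ : ℤ) (hδ : δ ∉ Finset.Icc (-(m : ℤ)) m) :
    Ot N k m μ (0, δ) τ = 0 := by
  have : ¬ δ ∣ (m : ℤ) := fun h => hδ (by
    have := Int.le_of_dvd (by exact_mod_cast hm) ((abs_dvd _ _).2 h)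
    rw [Finset.mem_Icc]; exact abs_le.1 this)
  simp [Ot, Cf, this]

/-- the coefficients of the terms with `a = 0` -/
def dd (N k m n : ℕ) : ℂ :=
  GS N * ∑ δ ∈ m.divisors, if n = N * (m / δ) ^ 2 then (J(δ | N) : ℂ) / δ ^ k else 0

theorem hasSum_dd {N k m μ : ℕ} (hN : Odd N) (τ : ℂ) :
    HasSum (fun n : ℕ => par μ (dd N k m) n * E (n * τ / (4 : ℕ)))
      (∑ δ ∈ m.divisors, Ot N k m μ (0, (δ : ℤ)) τ) := by
  have key : ∀ δ ∈ m.divisors, HasSum (fun n : ℕ => if n = N * (m / δ) ^ 2 then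
      Ot N k m μ (0, (δ : ℤ)) τ else 0) (Ot N k m μ (0, (δ : ℤ)) τ) := fun δ _ =>
    hasSum_ite_eq _ _
  refine (hasSum_sum key).congr_fun fun n => ?_
  have hO : ∀ δ ∈ m.divisors, n = N * (m / δ) ^ 2 → Ot N k m μ (0, (δ : ℤ)) τ =
      if n % 2 = μ then GS N * (J(δ | N) / δ ^ k) * E (n * τ / (4 : ℕ)) else 0 := by
    intro δ hδ hn
    have hd := Nat.dvd_of_mem_divisors hδ
    have hp := Nat.pos_of_mem_divisors hδ
    have hv : ((0 : ℤ), (δ : ℤ)) ≠ 0 := by simp [hp.ne']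
    have hd' : (δ : ℤ) ∣ m := by exact_mod_cast hd
    have hpar : n % 2 = (m / δ) % 2 := by
      rw [hn, Nat.mul_mod, Nat.odd_iff.1 hN, Nat.pow_mod]
      rcases Nat.mod_two_eq_zero_or_one (m / δ) with h | h <;> simp [h]
    have hc : ((m : ℤ) / δ % 2 = μ) ↔ n % 2 = μ := by
      rw [hpar, ← Int.natCast_div]; omega
    rw [Ot, if_neg hv, Cf, if_pos rfl]
    simp only [hd', true_and, hc]
    split_ifs
    · rw [← Int.natCast_div, Int.cast_natCast, hn]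
      simp only [Int.cast_zero, zero_mul, zero_add, Int.cast_natCast, Nat.cast_mul, Nat.cast_pow,
        Nat.cast_ofNat]
      ring
    · rw [zero_div]
  simp only [par, dd]
  split_ifs with hμ
  · rw [Finset.mul_sum, Finset.sum_mul]
    refine Finset.sum_congr rfl fun δ hδ => ?_
    split_ifs with hn
    · rw [hO δ hδ hn, if_pos hμ]
    · simp
  · rw [zero_mul, eq_comm]
    refine Finset.sum_eq_zero fun δ hδ => ?_
    split_ifs with hn
    · rw [hO δ hδ hn, if_neg hμ]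
    · rfl

theorem R_zero (hF : RowFAM) {N k : ℕ} (h : Adm N k) {m μ : ℕ} (hm : 1 ≤ m) (hμ : μ < 2) {τ : ℂ}
    (hτ : 0 < τ.im) :
    ∑' δ : ℤ, Ot N k m μ (0, δ) τ = 2 * ∑ δ ∈ m.divisors, Ot N k m μ (0, (δ : ℤ)) τ := by
  have hs : HasSum (fun δ : ℕ => Ot N k m μ (0, (δ : ℤ)) τ)
      (∑ δ ∈ m.divisors, Ot N k m μ (0, (δ : ℤ)) τ) := by
    refine hasSum_sum_of_ne_finset_zero fun δ hδ => ?_
    have : ¬ (δ : ℤ) ∣ (m : ℤ) := fun hd =>
      hδ (Nat.mem_divisors.2 ⟨by exact_mod_cast hd, by omega⟩)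
    simp [Ot, Cf, this]
  have h0 : Ot N k m μ (0, 0) τ = 0 := by simp [Ot]
  have h1 : HasSum (fun δ : ℕ => Ot N k m μ (0, (δ : ℤ) + 1) τ)
      (∑ δ ∈ m.divisors, Ot N k m μ (0, (δ : ℤ)) τ) := by
    have := (hasSum_nat_add_iff' 1).2 hs
    simpa [h0] using this
  have h2 : HasSum (fun δ : ℕ => Ot N k m μ (0, -((δ : ℤ) + 1)) τ)
      (∑ δ ∈ m.divisors, Ot N k m μ (0, (δ : ℤ)) τ) := by
    refine h1.congr_fun fun δ => ?_
    have := Ot_neg hF h m μ hμ hτ 0 ((δ : ℤ) + 1)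
    rwa [neg_zero] at this
  rw [(HasSum.of_add_one_of_neg_add_one (f := fun δ : ℤ => Ot N k m μ (0, δ) τ) h1 h2).tsum_eq, h0]
  ring

theorem sum_inv_sq (C : ℝ) : Summable fun a : ℕ => C / ((a + 1 : ℕ) : ℝ) ^ 2 :=
  (summable_nat_add_iff 1 (f := fun a : ℕ => C / (a : ℝ) ^ 2)).2 <| by
    simpa [div_eq_mul_inv] using (Real.summable_nat_pow_inv.2 one_lt_two).mul_left C

theorem main (hF : RowFAM) (hR : RowRA) {N k : ℕ} (h : Adm N k) {m μ : ℕ} (hm : 1 ≤ m)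
    (hμ : μ < 2) {τ : ℂ} (hτ : 0 < τ.im) : (Summable fun v => ‖Ot N k m μ v τ‖) ∧
      HasSum (fun n : ℕ => par μ (Brow N k m) n * E (n * τ / (4 : ℕ))) (∑' v, Ot N k m μ v τ) := by
  obtain ⟨C, hC⟩ := hR N k m μ τ h hm hμ hτ
  have hneg : ∀ a δ : ℤ, Ot N k m μ (-a, δ) τ = Ot N k m μ (a, Equiv.neg ℤ δ) τ := fun a δ => by
    rw [← Ot_neg hF h m μ hμ hτ a]; simp
  have s1 : ∀ a : ℤ, Summable fun δ : ℤ => ‖Ot N k m μ (a, δ) τ‖ := by
    intro a
    rcases lt_trichotomy a 0 with ha | rfl | ha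
    · obtain ⟨b, hb⟩ := Int.eq_ofNat_of_zero_le (show 0 ≤ -a by omega)
      rw [show a = -(b : ℤ) by omega]
      simp only [hneg]
      exact ((Equiv.neg ℤ).summable_iff (f := fun δ : ℤ => ‖Ot N k m μ ((b : ℤ), δ) τ‖)).2
        (hC b (by omega)).1
    · exact summable_of_ne_finset_zero (s := Finset.Icc (-(m : ℤ)) m) fun δ hδ => by
        rw [Ot_zero_supp hm τ δ hδ, norm_zero]
    · obtain ⟨b, rfl⟩ := Int.eq_ofNat_of_zero_le ha.le
      exact (hC b (by omega)).1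
  have s2 : Summable fun a : ℕ => ∑' δ : ℤ, ‖Ot N k m μ ((a : ℤ) + 1, δ) τ‖ :=
    Summable.of_nonneg_of_le (fun _ => tsum_nonneg fun _ => norm_nonneg _)
      (fun a => by simpa using (hC (a + 1) (by omega)).2.1) (sum_inv_sq C)
  have sO : Summable fun v => ‖Ot N k m μ v τ‖ := by
    refine (summable_prod_of_nonneg fun _ => norm_nonneg _).2 ⟨s1, ?_⟩
    refine Summable.of_add_one_of_neg_add_one s2 (s2.congr fun a => ?_)
    simp only [hneg]
    exact ((Equiv.neg ℤ).tsum_eq fun δ => ‖Ot N k m μ ((a : ℤ) + 1, δ) τ‖).symm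
  refine ⟨sO, ?_⟩
  let g : ℕ → ℕ → ℂ := fun a n =>
    par μ (fun n => pw k n * cB N k * St N k (a + 1) m n) n * E (n * τ / (4 : ℕ))
  have gle : ∀ a n, ‖g a n‖ ≤ ‖pw k n * cB N k * St N k (a + 1) m n * E (n * τ / 4)‖ := by
    intro a n
    simp only [g, par]
    split_ifs
    · exact le_of_eq (by norm_num)
    · simp only [zero_mul, norm_zero]; exact norm_nonneg _
  have g1 : ∀ a, Summable fun n => ‖g a n‖ := fun a =>
    Summable.of_nonneg_of_le (fun _ => norm_nonneg _) (gle a) (hC (a + 1) (by omega)).2.2.1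
  have sg : Summable (Function.uncurry g) := by
    refine Summable.of_norm ((summable_prod_of_nonneg fun _ => norm_nonneg _).2 ⟨g1, ?_⟩)
    refine Summable.of_nonneg_of_le (fun _ => tsum_nonneg fun _ => norm_nonneg _)
      (fun a => ?_) (sum_inv_sq C)
    exact ((g1 a).tsum_le_tsum (gle a) (hC (a + 1) (by omega)).2.2.1).trans
      (hC (a + 1) (by omega)).2.2.2.1
  have hg : HasSum (fun n => ∑' a, g a n) (∑' a, ∑' n, g a n) := by
    rw [← sg.tsum_comm]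
    exact sg.prod_symm.prod.hasSum
  have hR1 : ∀ a : ℕ, ∑' δ : ℤ, Ot N k m μ ((a : ℤ) + 1, δ) τ = ∑' n, g a n := fun a => by
    simpa [ser, g] using (hC (a + 1) (by omega)).2.2.2.2
  have hR2 : ∀ a : ℕ, ∑' δ : ℤ, Ot N k m μ (-((a : ℤ) + 1), δ) τ = ∑' n, g a n := fun a => by
    simp only [hneg]
    rw [← hR1]
    exact (Equiv.neg ℤ).tsum_eq fun δ => Ot N k m μ ((a : ℤ) + 1, δ) τ
  have hA : Summable fun a => ∑' n, g a n := sg.prod
  have tot : ∑' v, Ot N k m μ v τ =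
      2 * (∑ δ ∈ m.divisors, Ot N k m μ (0, (δ : ℤ)) τ + ∑' a, ∑' n, g a n) := by
    rw [sO.of_norm.tsum_prod, tsum_of_add_one_of_neg_add_one
      (f := fun a : ℤ => ∑' δ : ℤ, Ot N k m μ (a, δ) τ) (by simpa only [hR1] using hA)
      (by simpa only [hR2] using hA)]
    simp only [hR1, hR2, R_zero hF h hm hμ hτ]
    ring
  rw [tot]
  refine (((hasSum_dd (adm_odd h) τ).add hg).mul_left 2).congr_fun fun n => ?_
  simp only [g, par, Brow, dd, SS]
  split_ifs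
  · rw [tsum_mul_right, tsum_mul_left]; ring
  · simp

theorem sm_of (hJ : RowJH) {c : ℕ → ℂ} (h : ∀ μ < 2, ∀ τ : ℂ, 0 < τ.im →
    Summable fun n : ℕ => par μ c n * E (n * τ / (4 : ℕ))) : Sm c := by
  have key : ∀ r : ℝ, 0 < r → r < 1 → Summable fun n => ‖c n‖ * r ^ n := by
    intro r h0 h1
    have hl := Real.log_neg h0 h1
    have hy : 0 < -(2 * Real.log r) / π := div_pos (by linarith) Real.pi_pos
    have hτ : 0 < (((-(2 * Real.log r) / π : ℝ) : ℂ) * I).im := by simpa using hy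
    have := ((h 0 (by omega) _ hτ).add (h 1 (by omega) _ hτ)).norm
    refine this.congr fun n => ?_
    have e : par 0 c n + par 1 c n = c n := by
      simp only [par]
      rcases Nat.mod_two_eq_zero_or_one n with hn | hn <;> simp [hn]
    rw [← add_mul, e, norm_mul, hJ.norm]
    congr 1
    have e2 : ((n : ℂ) * (((-(2 * Real.log r) / π : ℝ) : ℂ) * I) / (4 : ℕ)) =
        ((n * (-(2 * Real.log r) / π) / 4 : ℝ) : ℂ) * I := by push_cast; ring
    rw [e2, mul_I_im, ofReal_re, ← Real.exp_log h0, ← Real.exp_nat_mul, Real.log_exp]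
    congr 1
    field_simp
    ring
  intro r h0 h1
  refine Summable.of_nonneg_of_le (fun n => by positivity) (fun n => ?_)
    (key (max r (1 / 2)) (lt_max_of_lt_right (by norm_num)) (max_lt h1 (by norm_num)))
  gcongr
  exact le_max_left _ _

theorem supp {N k m n : ℕ} (h : Adm N k) (hn : Brow N k m n ≠ 0) :
    n % 4 = 0 ∨ n % 4 = 1 + 2 * (k % 2) := by
  rw [← h.2.2]
  have hN : N % 4 = 1 ∨ N % 4 = 3 := by have := h.2.2; omega
  by_contra hc
  apply hn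
  have h1 : ∀ s : ℕ, n ≠ N * s ^ 2 := by
    rintro s rfl
    apply hc
    have : s % 4 = 0 ∨ s % 4 = 1 ∨ s % 4 = 2 ∨ s % 4 = 3 := by omega
    rcases hN with hN | hN <;> rcases this with hs | hs | hs | hs <;>
      simp [Nat.mul_mod, Nat.pow_mod, hN, hs]
  have h2 : ∀ a b : ℕ, ¬ (4 * a : ℤ) ∣ b ^ 2 - N * n := by
    intro a b hd
    apply hc
    have h4 : (4 : ℤ) ∣ b ^ 2 - N * n := (Dvd.intro _ rfl).trans hd
    have h5 : N * n ≡ b ^ 2 [MOD 4] := (Nat.modEq_iff_dvd).2 (by exact_mod_cast h4)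
    have hb : b % 4 = 0 ∨ b % 4 = 1 ∨ b % 4 = 2 ∨ b % 4 = 3 := by omega
    have hn : n % 4 = 0 ∨ n % 4 = 1 ∨ n % 4 = 2 ∨ n % 4 = 3 := by omega
    rw [Nat.ModEq, Nat.mul_mod, Nat.pow_mod] at h5
    rcases hN with hN | hN <;> rcases hb with hb | hb | hb | hb <;>
      rcases hn with hn | hn | hn | hn <;> simp [hN, hb, hn] at h5 ⊢
  simp only [Brow, SS, St, Sa, h1, h2, if_false]
  simp

theorem brow_zero {N k m : ℕ} (h : Adm N k) : Brow N k m 0 = 0 := by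
  have hk : (k : ℝ) - 1 / 2 ≠ 0 := by
    have : (6 : ℝ) ≤ k := by exact_mod_cast h.1
    linarith
  have h1 : pw k 0 = 0 := by simp only [pw, Nat.cast_zero, Real.zero_rpow hk, ofReal_zero]
  rw [Brow, h1, Finset.sum_eq_zero]
  · simp
  · intro δ hδ
    rw [if_neg]
    obtain ⟨hd, hm⟩ := Nat.mem_divisors.1 hδ
    have := Nat.div_pos (Nat.le_of_dvd (Nat.pos_of_ne_zero hm) hd) (Nat.pos_of_mem_divisors hδ)
    have := (adm_odd h).pos
    positivity

/-- the rotation of the lattice -/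
def rot : ℤ × ℤ ≃ ℤ × ℤ where
  toFun v := (v.2, -v.1)
  invFun v := (-v.2, v.1)
  left_inv v := by simp
  right_inv v := by simp

theorem Ot_S (hJ : RowJH) (hF : RowFAM) {N k : ℕ} (h : Adm N k) (m μ : ℕ) (hμ : μ < 2) {τ : ℂ}
    (hτ : 0 < τ.im) (v : ℤ × ℤ) : Ot N k m μ v (-1 / τ) = I ^ (k + k % 2) * Jh τ ^ (2 * k + 1) *
      ((Ot N k m 0 (rot v) τ + (-1) ^ μ * Ot N k m 1 (rot v) τ) / (√2 : ℝ)) := by
  obtain ⟨a, δ⟩ := v
  by_cases hv : (a, δ) = 0
  · obtain ⟨h1, h2⟩ := Prod.mk_eq_zero.1 hv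
    simp [h1, h2, Ot, rot]
  · have hv' : rot (a, δ) ≠ 0 := fun e => hv (rot.injective (e.trans rfl))
    have h0 : τ ≠ 0 := fun e => by simp [e] at hτ
    rw [Ot, Ot, Ot, if_neg hv, if_neg hv', if_neg hv']
    simp only [rot, Equiv.coe_fn_mk]
    rw [hF.lawS N a δ m μ τ (adm_odd h) h.2.1 hv hμ hτ]
    have hN : ((√N : ℝ) : ℂ) ≠ 0 := by
      have := (adm_odd h).pos
      exact_mod_cast (Real.sqrt_pos.2 (by exact_mod_cast this)).ne'
    have s : GS N / (√N : ℝ) = I ^ (k % 2) := by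
      rw [GS, mul_div_cancel_left₀ _ hN]
      have := h.2.2
      rcases Nat.mod_two_eq_zero_or_one k with hk | hk
      · rw [hk, if_pos (by omega), pow_zero]
      · rw [hk, if_neg (by omega), pow_one]
    have e : (a : ℂ) * (-1 / τ) + δ = (δ * τ + ((-a : ℤ) : ℂ)) / τ := by
      push_cast; field_simp; ring
    have t : τ ^ k = I ^ k * Jh τ ^ (2 * k) := by
      rw [pow_mul, hJ.sq, ← mul_pow]
      congr 1
      linear_combination τ * I_mul_I
    rw [s, e, div_pow, div_div_eq_mul_div, t, pow_add, pow_succ]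
    ring

theorem rowROW : OfROW := by
  intro _ hJ _ hF hR N k m h hm
  refine ⟨⟨sm_of hJ fun μ hμ τ hτ => (main hF hR h hm hμ hτ).2.summable, fun n hn => supp h hn,
    fun τ hτ μ hμ => ?_⟩, brow_zero h, fun μ hμ τ hτ =>
      ⟨(main hF hR h hm hμ hτ).1, (main hF hR h hm hμ hτ).2.tsum_eq.symm⟩⟩
  have hτ' : 0 < (-1 / τ).im := by
    have h0 : τ ≠ 0 := fun e => by simp [e] at hτ
    rw [neg_div, one_div, neg_im, inv_im, neg_div, neg_neg]
    exact div_pos hτ (normSq_pos.2 h0)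
  have m0 := main hF hR h hm (μ := 0) (by omega) hτ
  have m1 := main hF hR h hm (μ := 1) (by omega) hτ
  rw [Nat.cast_one, one_mul, ser, ser, ser, (main hF hR h hm hμ hτ').2.tsum_eq, m0.2.tsum_eq,
    m1.2.tsum_eq]
  simp only [Ot_S hJ hF h m μ hμ hτ]
  rw [tsum_mul_left, tsum_div_const, rot.tsum_eq fun v =>
    Ot N k m 0 v τ + (-1) ^ μ * Ot N k m 1 v τ,
    m0.1.of_norm.tsum_add (m1.1.of_norm.mul_left _), tsum_mul_left]

end

end Pool.Agent.MP_5f72fe_nt.H22
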