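import Pool.Agent.MP_5f72fe_nt.H3.SpecC

/-! The genus character is its own Fourier transform. -/

set_option linter.unusedSectionVars false

namespace Pool.Agent.MP_5f72fe_nt.H22

open Pool.Agent.MP_5f72fe_nt.H3 Complex Finset
open scoped Real NumberTheorySymbols

noncomputable section

section Field

variable {F : Type} [Field F] [Fintype F] [DecidableEq F]

/-- the quadratic character with complex values -/
def eta (F : Type) [Field F] [Fintype F] [DecidableEq F] : MulChar F ℂ :=
  (quadraticChar F).ringHomComp (Int.castRingHom ℂ)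

theorem eta_apply (x : F) : eta F x = (quadraticChar F x : ℂ) := rfl

theorem eta_ne (hF : ringChar F ≠ 2) : eta F ≠ 1 :=
  (MulChar.ringHomComp_ne_one_iff (RingHom.injective_int _)).2 (quadraticChar_ne_one hF)

theorem eta_sq {x : F} (hx : x ≠ 0) : eta F x * eta F x = 1 := by
  rw [eta_apply, ← sq, ← Int.cast_pow, quadraticChar_sq_one hx, Int.cast_one]

theorem eta_zero : eta F 0 = 0 := MulChar.map_zero _

theorem gauss_shift (hF : ringChar F ≠ 2) (ψ : AddChar F ℂ) (t : F) :
    ∑ x, eta F x * ψ (x * t) = eta F t * gaussSum (eta F) ψ := by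
  by_cases ht : t = 0
  · simp only [ht, mul_zero, AddChar.map_zero_eq_one, mul_one, eta_zero, zero_mul]
    exact MulChar.sum_eq_zero_of_ne_one (eta_ne hF)
  · have h := gaussSum_mulShift (eta F) ψ (Units.mk0 t ht)
    rw [← h, ← mul_assoc, Units.val_mk0, eta_sq ht, one_mul]
    simp only [gaussSum, AddChar.mulShift_apply, mul_comm t]

theorem gauss_quad (hF : ringChar F ≠ 2) {ψ : AddChar F ℂ} (hψ : ψ.IsPrimitive) {t : F}
    (ht : t ≠ 0) : ∑ x, ψ (x ^ 2 * t) = eta F t * gaussSum (eta F) ψ := by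
  have h1 : ∑ x, ψ (x ^ 2 * t) = ∑ y, (eta F y + 1) * ψ (y * t) := by
    rw [← Finset.sum_fiberwise (s := univ) (g := fun x : F => x ^ 2)]
    refine sum_congr rfl fun y _ => ?_
    rw [sum_congr rfl (g := fun _ => ψ (y * t)) fun x hx => by rw [(mem_filter.1 hx).2]]
    rw [sum_const, nsmul_eq_mul]
    congr 1
    have := quadraticChar_card_sqrts hF y
    rw [Set.toFinset_ofPred] at this
    rw [eta_apply]
    exact_mod_cast this
  rw [h1]
  simp only [add_mul, one_mul, sum_add_distrib]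
  rw [gauss_shift hF, AddChar.sum_mulShift t hψ, if_neg ht, Nat.cast_zero, add_zero]

/-- the local genus character -/
def chF (a b c : F) : ℂ := if b ^ 2 - 4 * a * c = 0 then (if a = 0 then eta F c else eta F a) else 0

theorem sum_chF (hF : ringChar F ≠ 2) {a : F} (ha : a ≠ 0) (b : F) (f : F → ℂ) :
    ∑ c, chF a b c * f c = eta F a * f (b ^ 2 / (4 * a)) := by
  have h2 : (2 : F) ≠ 0 := Ring.two_ne_zero hF
  have h4 : (4 : F) ≠ 0 := by
    rw [show (4 : F) = 2 * 2 by norm_num]; exact mul_ne_zero h2 h2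
  rw [sum_eq_single (b ^ 2 / (4 * a))]
  · rw [chF, if_pos (by field_simp; ring), if_neg ha]
  · intro c _ hc
    rw [chF, if_neg, zero_mul]
    intro h
    apply hc
    field_simp
    linear_combination -h
  · simp

theorem sum_chF_zero (b : F) (f : F → ℂ) :
    ∑ c, chF 0 b c * f c = if b = 0 then ∑ c, eta F c * f c else 0 := by
  split_ifs with hb
  · simp [chF, hb]
  · simp [chF, hb]

theorem field_xft (hF : ringChar F ≠ 2) {ψ : AddChar F ℂ} (hψ : ψ.IsPrimitive) (h a δ b' : F)
    (hh : 2 * h = 1) :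
    ∑ b, ∑ c, chF a b c * ψ (c * δ - b * b' * h) =
      gaussSum (eta F) ψ * ∑ c, chF δ b' c * ψ (-(a * c)) := by
  have h2 : (2 : F) ≠ 0 := Ring.two_ne_zero hF
  have h4 : (4 : F) ≠ 0 := by
    rw [show (4 : F) = 2 * 2 by norm_num]; exact mul_ne_zero h2 h2
  have hh' : h = 2⁻¹ := eq_inv_of_mul_eq_one_right hh
  have hh0 : h ≠ 0 := by rw [hh']; exact inv_ne_zero h2
  by_cases ha : a = 0
  · subst ha
    simp only [sum_chF_zero, sum_ite_eq', mem_univ, if_true, zero_mul, sub_zero, neg_zero,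
      AddChar.map_zero_eq_one]
    rw [gauss_shift hF]
    by_cases hδ : δ = 0
    · subst hδ
      rw [sum_chF_zero, eta_zero, zero_mul]
      split_ifs
      · simp only [mul_one]
        rw [MulChar.sum_eq_zero_of_ne_one (eta_ne hF), mul_zero]
      · rw [mul_zero]
    · rw [sum_chF hF hδ]; ring
  · simp only [sum_chF hF ha]
    rw [← mul_sum]
    by_cases hδ : δ = 0
    · subst hδ
      rw [sum_chF_zero]
      simp only [mul_zero, zero_sub]
      have e : ∀ b : F, -(b * b' * h) = b * (-(b' * h)) := fun b => by ring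
      simp only [e]
      rw [AddChar.sum_mulShift _ hψ]
      by_cases hb : b' = 0
      · have e2 : ∀ c : F, -(a * c) = c * (-a) := fun c => by ring
        simp only [e2, hb, zero_mul, neg_zero, if_true]
        rw [gauss_shift hF]
        have hs := gaussSum_sq (eta_ne hF) ((quadraticChar_isQuadratic F).comp _) hψ
        have e3 : eta F (-a) = eta F (-1) * eta F a := by rw [← map_mul, neg_one_mul]
        have e4 := eta_sq (F := F) (x := -1) (neg_ne_zero.2 one_ne_zero)
        rw [e3]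
        linear_combination (-(eta F (-1) * eta F a)) * hs - eta F a * (Fintype.card F : ℂ) * e4
      · rw [if_neg (neg_ne_zero.2 (mul_ne_zero hb hh0)), if_neg hb]; simp
    · rw [sum_chF hF hδ]
      have ht : δ / (4 * a) ≠ 0 := div_ne_zero hδ (mul_ne_zero h4 ha)
      have e : ∀ b : F, ψ (b ^ 2 / (4 * a) * δ - b * b' * h) =
          ψ ((b - a * b' / δ) ^ 2 * (δ / (4 * a))) * ψ (-(a * (b' ^ 2 / (4 * δ)))) := by
        intro b
        rw [← AddChar.map_add_eq_mul]
        congr 1
        rw [hh']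
        field_simp
        ring
      simp only [e]
      rw [← sum_mul, (Equiv.subRight (a * b' / δ)).sum_comp
        (fun x => ψ (x ^ 2 * (δ / (4 * a)))) |> fun q => (by simpa using q :
          ∑ b, ψ ((b - a * b' / δ) ^ 2 * (δ / (4 * a))) = ∑ x, ψ (x ^ 2 * (δ / (4 * a)))),
        gauss_quad hF hψ ht]
      have e5 : eta F a * eta F (δ / (4 * a)) = eta F δ := by
        rw [← map_mul, show a * (δ / (4 * a)) = h * h * δ by rw [hh']; field_simp; ring,
          map_mul, map_mul, eta_sq hh0, one_mul]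
      rw [← e5]; ring

end Field

theorem sum_range_zmod (N : ℕ) [NeZero N] (f : ZMod N → ℂ) :
    ∑ c ∈ range N, f (c : ZMod N) = ∑ x, f x := by
  refine sum_bij' (fun c _ => (c : ZMod N)) (fun x _ => x.val) (fun _ _ => mem_univ _)
    (fun x _ => mem_range.2 (ZMod.val_lt x)) (fun c hc => ZMod.val_cast_of_lt (mem_range.1 hc))
    (fun x _ => ZMod.natCast_zmod_val x) fun _ _ => rfl

/-- periodic functions -/
def Per (N : ℕ) (f : ℤ → ℂ) : Prop := ∀ x y : ℤ, f (x + N * y) = f x

theorem Per.val {N : ℕ} [NeZero N] {f : ℤ → ℂ} (hf : Per N f) (c : ℕ) :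
    f c = f ((c : ZMod N).val : ℕ) := by
  rw [ZMod.val_natCast, ← hf ((c % N : ℕ) : ℤ) ((c / N : ℕ) : ℤ)]
  congr 1
  exact_mod_cast (Nat.mod_add_div c N).symm

theorem crt {M N : ℕ} (hM : M ≠ 0) (hN : N ≠ 0) (h : M.Coprime N) {f g : ℤ → ℂ} (hf : Per M f)
    (hg : Per N g) :
    ∑ c ∈ range (M * N), f c * g c = (∑ c ∈ range M, f c) * ∑ c ∈ range N, g c := by
  have : NeZero M := ⟨hM⟩
  have : NeZero N := ⟨hN⟩
  let f' : ZMod M → ℂ := fun x => f (x.val : ℕ)
  let g' : ZMod N → ℂ := fun x => g (x.val : ℕ)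
  let e := ZMod.chineseRemainder h
  have h1 : ∑ c ∈ range M, f c = ∑ x, f' x := by
    rw [← sum_range_zmod]; exact sum_congr rfl fun c _ => hf.val c
  have h2 : ∑ c ∈ range N, g c = ∑ x, g' x := by
    rw [← sum_range_zmod]; exact sum_congr rfl fun c _ => hg.val c
  rw [h1, h2, sum_mul_sum, ← Fintype.sum_prod_type',
    ← e.toEquiv.sum_comp (fun z => f' z.1 * g' z.2), ← sum_range_zmod]
  refine sum_congr rfl fun c _ => ?_
  have : e.toEquiv (c : ZMod (M * N)) = ((c : ZMod M), (c : ZMod N)) := map_natCast e c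
  rw [this, hf.val c, hg.val c]

/-- the additive character -/
def eN (N : ℕ) (x : ℤ) : ℂ := E (x / N)

theorem eN_per (hJ : RowJH) {N : ℕ} (hN : N ≠ 0) (x y : ℤ) : eN N (x + N * y) = eN N x := by
  have : (N : ℂ) ≠ 0 := by exact_mod_cast hN
  rw [eN, eN, show (((x + N * y : ℤ) : ℂ) / N) = x / N + (y : ℤ) by push_cast; field_simp,
    hJ.add, hJ.int, mul_one]

theorem eN_mul (hJ : RowJH) {M N : ℕ} (hM : M ≠ 0) (hN : N ≠ 0) {u v : ℤ}
    (h : u * N + v * M = 1) (x : ℤ) : eN (M * N) x = eN M (u * x) * eN N (v * x) := by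
  have h1 : (M : ℂ) ≠ 0 := by exact_mod_cast hM
  have h2 : (N : ℂ) ≠ 0 := by exact_mod_cast hN
  have h3 : (u : ℂ) * N + v * M = 1 := by exact_mod_cast h
  rw [eN, eN, eN, ← hJ.add]
  congr 1
  push_cast
  field_simp
  linear_combination (-(x : ℂ)) * h3

theorem chi_mul {M N : ℕ} (h : M.Coprime N) (a b c : ℤ) :
    chi (M * N) a b c = chi M a b c * chi N a b c := by
  rw [chi, chi, chi, h.primeFactors_mul, prod_union h.disjoint_primeFactors]

/-- the identity for a general primitive character -/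
def St (N : ℕ) : Prop := ∀ t h a δ b' : ℤ, IsCoprime t N → (N : ℤ) ∣ 2 * h - 1 →
  ∑ b ∈ range N, ∑ c ∈ range N, (chi N a b c : ℂ) * eN N (t * (c * δ - b * b' * h)) =
    (∑ c ∈ range N, (J(c | N) : ℂ) * eN N (t * c)) *
      ∑ c ∈ range N, (chi N δ b' c : ℂ) * eN N (t * -(a * c))

theorem st_one : St 1 := by
  intro t h a δ b' _ _
  simp [chi, eN, E]

theorem st_prime {p : ℕ} (hp : p.Prime) (ho : Odd p) : St p := by
  intro t h a δ b' ht hh
  have : Fact p.Prime := ⟨hp⟩
  have hF : ringChar (ZMod p) ≠ 2 := by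
    rw [ZMod.ringChar_zmod_n]; rintro rfl; exact absurd ho (by decide)
  have ht0 : (t : ZMod p) ≠ 0 := by
    rw [Ne, ZMod.intCast_zmod_eq_zero_iff_dvd]
    intro hd
    exact (Nat.prime_iff_prime_int.1 hp).not_isUnit (ht.isUnit_of_dvd' hd dvd_rfl)
  let ψ : AddChar (ZMod p) ℂ := (ZMod.stdAddChar (N := p)).mulShift (t : ZMod p)
  have hψ : ψ.IsPrimitive := AddChar.IsPrimitive.of_ne_one (ZMod.isPrimitive_stdAddChar p ht0)
  have he : ∀ x : ℤ, eN p (t * x) = ψ (x : ZMod p) := fun x => by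
    rw [AddChar.mulShift_apply, ← Int.cast_mul, ZMod.stdAddChar_coe, eN, E, mul_div_assoc]
  have hJ : ∀ x : ℤ, (J(x | p) : ℂ) = eta (ZMod p) x := fun x => by
    rw [← jacobiSym.legendreSym.to_jacobiSym]; rfl
  have hc : ∀ x y z : ℤ, (chi p x y z : ℂ) = chF (x : ZMod p) y z := fun x y z => by
    rw [chi, hp.primeFactors, prod_singleton, chiP, chF]
    have e : (y : ZMod p) ^ 2 - 4 * x * z = ((y ^ 2 - 4 * x * z : ℤ) : ZMod p) := by
      push_cast; ring
    simp only [e, ZMod.intCast_zmod_eq_zero_iff_dvd]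
    split_ifs <;> simp [hJ]
  have hh' : 2 * (h : ZMod p) = 1 := by
    have := (ZMod.intCast_zmod_eq_zero_iff_dvd _ p).2 hh
    push_cast at this
    linear_combination this
  have key := field_xft hF hψ (h : ZMod p) a δ b' hh'
  simp only [he, hJ, hc]
  push_cast
  rw [gaussSum] at key
  rw [sum_range_zmod p fun c => eta (ZMod p) c * ψ c,
    sum_range_zmod p fun c => chF (δ : ZMod p) b' c * ψ (-(a * c)), ← key,
    ← sum_range_zmod p fun b => ∑ c, chF (a : ZMod p) b c * ψ (c * δ - b * b' * h)]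
  exact sum_congr rfl fun b _ =>
    sum_range_zmod p fun c => chF (a : ZMod p) b c * ψ (c * δ - b * b' * h)

theorem st_mul (hJ : RowJH) (hC : RowCHI) {M N : ℕ} (hM : M ≠ 0) (hN : N ≠ 0) (hc : M.Coprime N)
    (sM : St M) (sN : St N) : St (M * N) := by
  intro t h a δ b' ht hh
  obtain ⟨v, u, huv⟩ : IsCoprime (M : ℤ) N := Nat.isCoprime_iff_coprime.2 hc
  have huv' : u * N + v * M = 1 := by linear_combination huv
  push_cast at ht hh
  have hu : IsCoprime (u * t) M :=
    IsCoprime.mul_left ⟨N, v, by linear_combination huv⟩ ht.of_mul_right_left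
  have hv : IsCoprime (v * t) N :=
    IsCoprime.mul_left ⟨M, u, by linear_combination huv⟩ ht.of_mul_right_right
  have e1 := sM (u * t) h a δ b' hu ((Dvd.intro _ rfl).trans hh)
  have e2 := sN (v * t) h a δ b' hv ((Dvd.intro_left _ rfl).trans hh)
  have pc : ∀ (K : ℕ), K ≠ 0 → ∀ (x y s r q : ℤ),
      Per K fun c => (chi K x y c : ℂ) * eN K (s * (c * r + q)) := by
    intro K hK x y s r q c z
    have := hC.per K x y c 0 0 z
    simp only [mul_zero, add_zero] at this
    simp only [this]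
    rw [show s * ((c + K * z) * r + q) = s * (c * r + q) + K * (s * z * r) by ring, eN_per hJ hK]
  have pb : ∀ (K : ℕ), K ≠ 0 → ∀ (s : ℤ), Per K fun b =>
      ∑ c ∈ range K, (chi K a b c : ℂ) * eN K (s * (c * δ + -(b * b' * h))) := by
    intro K hK s b z
    refine sum_congr rfl fun c _ => ?_
    have := hC.per K a b c 0 z 0
    simp only [mul_zero, add_zero] at this
    rw [this, show s * (c * δ + -((b + K * z) * b' * h)) =
      s * (c * δ + -(b * b' * h)) + K * (-(s * z * b' * h)) by ring, eN_per hJ hK]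
  have pj : ∀ (K : ℕ), K ≠ 0 → ∀ (s : ℤ), Per K fun c => (J(c | K) : ℂ) * eN K (s * c) := by
    intro K hK s c z
    have : J(c + K * z | K) = J(c | K) := jacobiSym.mod_left' (by simp)
    simp only [this]
    rw [show s * (c + K * z) = s * c + K * (s * z) by ring, eN_per hJ hK]
  have k1 := crt hM hN hc (pb M hM (u * t)) (pb N hN (v * t))
  have k2 := crt hM hN hc (pj M hM (u * t)) (pj N hN (v * t))
  have k3 := crt hM hN hc (pc M hM δ b' (u * t) (-a) 0) (pc N hN δ b' (v * t) (-a) 0)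
  simp only [← sub_eq_add_neg] at k1
  have n1 : ∀ c : ℤ, c * -a + 0 = -(a * c) := fun c => by ring
  simp only [n1] at k3
  rw [e1, e2, mul_mul_mul_comm, ← k2, ← k3] at k1
  have : NeZero M := ⟨hM⟩
  have : NeZero N := ⟨hN⟩
  simp only [eN_mul hJ hM hN huv', chi_mul hc, jacobiSym.mul_right, Int.cast_mul, ← mul_assoc u,
    ← mul_assoc v]
  refine Eq.trans (sum_congr rfl fun b _ => ?_) (k1.trans ?_)
  · have k4 := crt hM hN hc (pc M hM a b (u * t) δ (-(b * b' * h)))
      (pc N hN a b (v * t) δ (-(b * b' * h)))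
    simp only [← sub_eq_add_neg] at k4
    rw [← k4]
    exact sum_congr rfl fun c _ => mul_mul_mul_comm _ _ _ _
  · congr 1 <;> exact sum_congr rfl fun c _ => mul_mul_mul_comm _ _ _ _

theorem st_all (hJ : RowJH) (hC : RowCHI) (N : ℕ) : Odd N → Squarefree N → St N := by
  induction N using induction_on_primes with
  | zero => intro h; exact absurd h (by decide)
  | one => exact fun _ _ => st_one
  | prime_mul p a hp ih =>
    intro ho hs
    obtain ⟨o1, o2⟩ := Nat.odd_mul.1 ho
    obtain ⟨c, -, s2⟩ := Nat.squarefree_mul_iff.1 hs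
    exact st_mul hJ hC hp.ne_zero o2.pos.ne' c (st_prime hp o1) (ih o2 s2)

theorem rowXFT : OfXFT := by
  intro hJ hG hC N a δ b' ho hs
  obtain ⟨k, hk⟩ := ho
  have hh : (N + 1) / 2 = k + 1 := by omega
  have key := st_all hJ hC N ⟨k, hk⟩ hs 1 ((k + 1 : ℕ) : ℤ) a δ b' isCoprime_one_left
    ⟨1, by rw [hk]; push_cast; ring⟩
  have g := hG N ⟨k, hk⟩ hs 1
  simp only [Int.cast_one, mul_one, jacobiSym.one_left, one_mul] at g
  simp only [one_mul, eN, Int.cast_natCast] at key
  rw [g] at key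
  rw [hat, hh, div_mul_eq_mul_div]
  congr 1
  simp only [XX, sum_mul]
  refine Eq.trans (sum_congr rfl fun b _ => sum_congr rfl fun c _ => ?_) (key.trans ?_)
  · rw [mul_assoc, ← hJ.add]
    congr 2
    push_cast
    ring
  · congr 1
    refine sum_congr rfl fun c _ => ?_
    congr 2
    push_cast
    ring

end

end Pool.Agent.MP_5f72fe_nt.H22
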